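import Mathlib
import Pool.Agent.Lib.MP_663568_nul.Abstract
import Pool.Agent.Lib.MP_663568_nul.CorrFam

/-!
# Q1 of MP_663568_nt for nilsequences twisted by polynomial phases with top coefficient in a small set

`G` is a topological group with a filtration `G = A 1 ≥ A 2 ≥ … ≥ A t = 1`, `⁅A i, A j⁆ ≤ A (i + j)`,
and `Γ` a closed subgroup such that each `A i` is a compact set times `Γ ∩ A i` (a filtered
nilmanifold of degree less than `t`; by Malcev every nilmanifold of step less than `t`, with the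
lower central series, is one).  For every `ε > 0` there is `v > 0` such that for every compact set
`K` of irrational numbers of Lebesgue measure less than `v` (every compact null set of irrational
numbers, for all `ε` simultaneously) the estimate of Q1 holds for `μ(n) e(P(n))` with the supremum
over all `g ∈ G`, all base points and all real polynomials `P` of degree at most `t` with `t`-th
coefficient near `K`, all chosen after `n`.
-/

set_option autoImplicit false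
open Finset

namespace Pool.Agent.Results.MP_663568_nt.NullSets

open Pool.Agent.Lib.MP_663568_nt Pool.Agent.Lib.MP_663568_nt.Katai Pool.Agent.Lib.MP_663568_nt.Tw
  Pool.Agent.Lib.MP_663568_nt.Nul

theorem result (G : Type) [Group G] [TopologicalSpace G] [IsTopologicalGroup G]
    (t : ℕ) (ht : 0 < t)
    (A : ℕ → Subgroup G) (hanti : Antitone A) (hcomm : ∀ i j, ⁅A i, A j⁆ ≤ A (i + j))
    (hA1 : A 1 = ⊤) (hAt : A t = ⊥)
    (Γ : Subgroup G) (hΓ : IsClosed (Γ : Set G))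
    (hcpt : ∀ i, ∃ C : Set G, IsCompact C ∧ (∀ c ∈ C, c ∈ A i) ∧
      ∀ x ∈ A i, ∃ c ∈ C, ∃ γ ∈ Γ, x = c * γ)
    (f : G ⧸ Γ → ℂ) (hf : Continuous f) (ε : ℝ) (hε : 0 < ε) :
    ∃ v : ℝ, 0 < v ∧ ∀ K : Set ℝ, IsCompact K → (∀ α ∈ K, Irrational α) →
      MeasureTheory.volume K < ENNReal.ofReal v →
    ∃ δ : ℝ, 0 < δ ∧ ∃ H₀ : ℕ, ∀ N H : ℕ, H₀ ≤ H → H ≤ N →
      (∑ n ∈ Finset.Icc 1 N, (1 / (n : ℝ)) *
        ⨆ v : {P : Polynomial ℝ // P.natDegree ≤ t ∧ ∃ α ∈ K, |P.coeff t - α| < δ} × (G × G),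
          ‖∑ h ∈ Finset.Icc 1 H,
            Complex.exp (2 * Real.pi * Complex.I * ((v.1.1.eval ((h + n : ℕ) : ℝ) : ℝ) : ℂ)) *
            f (QuotientGroup.mk (v.2.1 ^ (h + n) * v.2.2) : G ⧸ Γ) *
              ((ArithmeticFunction.moebius (n + h) : ℤ) : ℂ)‖)
      ≤ ε * (H : ℝ) * Real.log (N : ℝ) := by
  classical
  -- a bound for `f`
  have h0 : A 0 = ⊤ := top_le_iff.mp (hA1 ▸ hanti (Nat.zero_le 1))
  have hX : CompactSpace (G ⧸ Γ) := by
    obtain ⟨C, hC1, hC2, hC3⟩ := hcpt 0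
    refine ⟨?_⟩
    have : (Set.univ : Set (G ⧸ Γ)) = (fun g : G => (g : G ⧸ Γ)) '' C := by
      ext x
      simp only [Set.mem_univ, true_iff]
      obtain ⟨g, rfl⟩ := QuotientGroup.mk_surjective x
      obtain ⟨c, hc, γ, hγ, e⟩ := hC3 g (by rw [h0]; trivial)
      exact ⟨c, hc, (coe_eq_of_mul Γ _ _ _ hγ e).symm⟩
    rw [this]
    exact hC1.image QuotientGroup.continuous_mk
  obtain ⟨B, hB⟩ : ∃ B : ℝ, ∀ x, ‖f x‖ ≤ B := by
    have h1 : IsCompact (Set.range fun x => ‖f x‖) := isCompact_range (by fun_prop)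
    obtain ⟨B, hB⟩ := h1.bddAbove
    exact ⟨B, fun x => hB ⟨x, rfl⟩⟩
  have hB0 : 0 ≤ B := (norm_nonneg _).trans (hB (QuotientGroup.mk 1))
  have hB1 : 0 < B + 1 := by linarith
  set f' : G ⧸ Γ → ℂ := fun x => ((B + 1 : ℝ) : ℂ)⁻¹ * f x with hf'
  have hf'c : Continuous f' := by fun_prop
  have hf'1 : ∀ x, ‖f' x‖ ≤ 1 := by
    intro x
    rw [hf']
    beta_reduce
    rw [norm_mul, norm_inv, Complex.norm_real, Real.norm_eq_abs, abs_of_pos hB1,
      inv_mul_le_iff₀ hB1, mul_one]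
    linarith [hB x]
  -- the family
  set F : ({P : Polynomial ℝ // P.natDegree ≤ t} × (G × G)) → ℕ → ℂ := fun i n =>
    ee (i.1.1.eval (n : ℝ)) * f' ((i.2.1 ^ n * i.2.2 : G) : G ⧸ Γ) with hF
  set ld : ({P : Polynomial ℝ // P.natDegree ≤ t} × (G × G)) → ℝ := fun i => i.1.1.coeff t with hld
  have hF1 : ∀ i n, ‖F i n‖ ≤ 1 := fun i n => by
    rw [hF]; beta_reduce
    rw [norm_mul]
    exact mul_le_one₀ (norm_ee _).le (norm_nonneg _) (hf'1 _)
  have hcorr : ∀ ε : ℝ, 0 < ε → ∃ C : ℕ, 1 ≤ C ∧ Corr F ld t ε C := by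
    intro ε hε
    obtain ⟨C, hC, hCc⟩ := corr_fam t ht A hanti hcomm hA1 hAt Γ hΓ hcpt f' hf'c hf'1 ε hε
    refine ⟨C, hC, fun κ hκ => ?_⟩
    obtain ⟨L₀, hL₀⟩ := hCc κ hκ
    refine ⟨L₀, fun L hL i i' p q j hs => ?_⟩
    exact hL₀ L hL i.1.1 i'.1.1 i.1.2 i'.1.2 i.2.1 i.2.2 i'.2.1 i'.2.2 p q j hs
  obtain ⟨v, hv, hmain⟩ := all_scales F ld t ht hF1 hcorr (ε / (B + 1)) (by positivity)
  refine ⟨v, hv, fun K hK hirr hvol => ?_⟩
  have hvol' : (MeasureTheory.volume K).toReal < v := by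
    rw [← ENNReal.toReal_ofReal hv.le]
    exact (ENNReal.toReal_lt_toReal hK.measure_lt_top.ne ENNReal.ofReal_ne_top).mpr hvol
  obtain ⟨δ, hδ, H₀, hH₀⟩ := hmain K hK hirr hvol' muC norm_muC muC_mul
  refine ⟨δ, hδ, H₀, fun N H h1 h2 => ?_⟩
  have h3 := hH₀ N H h1 h2
  have hFA1 : ∀ i n, ‖FA F ld K δ i n‖ ≤ 1 := fun i n => hF1 i.1 n
  have h4 : ∀ n : ℕ, (⨆ v : {P : Polynomial ℝ // P.natDegree ≤ t ∧ ∃ α ∈ K,
          |P.coeff t - α| < δ} × (G × G),
          ‖∑ h ∈ Finset.Icc 1 H,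
            Complex.exp (2 * Real.pi * Complex.I * ((v.1.1.eval ((h + n : ℕ) : ℝ) : ℝ) : ℂ)) *
            f (QuotientGroup.mk (v.2.1 ^ (h + n) * v.2.2) : G ⧸ Γ) *
              ((ArithmeticFunction.moebius (n + h) : ℤ) : ℂ)‖) ≤
      (B + 1) * GG (FA F ld K δ) muC H n := by
    intro n
    apply Real.iSup_le
    · intro v
      set i : {i // i ∈ AA ld K δ} := ⟨(⟨v.1.1, v.1.2.1⟩, v.2), v.1.2.2⟩ with hi
      have e : ∑ h ∈ Finset.Icc 1 H,
            Complex.exp (2 * Real.pi * Complex.I * ((v.1.1.eval ((h + n : ℕ) : ℝ) : ℝ) : ℂ)) *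
            f (QuotientGroup.mk (v.2.1 ^ (h + n) * v.2.2) : G ⧸ Γ) *
              ((ArithmeticFunction.moebius (n + h) : ℤ) : ℂ) =
          ((B + 1 : ℝ) : ℂ) * ∑ h ∈ Icc 1 H, FA F ld K δ i (n + h) * muC (n + h) := by
        rw [mul_sum]
        refine sum_congr rfl fun h _ => ?_
        rw [add_comm h n]
        have e0 : FA F ld K δ i (n + h) = ee (v.1.1.eval ((n + h : ℕ) : ℝ)) *
          f' ((v.2.1 ^ (n + h) * v.2.2 : G) : G ⧸ Γ) := rfl
        rw [e0, hf', ee, muC]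
        beta_reduce
        have hne : ((B + 1 : ℝ) : ℂ) ≠ 0 := by exact_mod_cast hB1.ne'
        field_simp
      rw [e, norm_mul, Complex.norm_real, Real.norm_eq_abs, abs_of_pos hB1]
      have h5 := le_GG (FA F ld K δ) muC hFA1 norm_muC H n i
      exact mul_le_mul_of_nonneg_left h5 hB1.le
    · exact mul_nonneg hB1.le (GG_nonneg _ _ _ _)
  calc _ ≤ ∑ n ∈ Icc 1 N, (1 / (n : ℝ)) * ((B + 1) * GG (FA F ld K δ) muC H n) :=
        sum_le_sum fun n _ => mul_le_mul_of_nonneg_left (h4 n) (by positivity)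
    _ = (B + 1) * ∑ n ∈ Icc 1 N, (1 / (n : ℝ)) * GG (FA F ld K δ) muC H n := by
        rw [mul_sum]
        exact sum_congr rfl fun n _ => by ring
    _ ≤ (B + 1) * (ε / (B + 1) * H * Real.log N) := mul_le_mul_of_nonneg_left h3 hB1.le
    _ = _ := by field_simp

end Pool.Agent.Results.MP_663568_nt.NullSets
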