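import Pool.Agent.Lib.MP_663568_nt_h87.Strong

/-!
# The weakest and the strongest form of Q1 of MP_663568_nt are equivalent

For every nilmanifold `G ⧸ Γ`:

* for a single continuous `f` and a single `x₀`, the estimate of Q1 (all scales, uniformly in `N`) is
  equivalent to `WeakAt Γ 𝒩 f x₀`: one scale `H` for each `ε`, only along a sparse set `𝒩` of `N`,
  together with the bound `o(M)` for initial segments, uniform in `g`;
* Q1 for all Lipschitz `f` and all `x₀` is equivalent to `WeakAt Γ 𝒩 f x₁` for one base point `x₁`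
  and all `f` in a set of Lipschitz functions with dense span, and also to `StrongEst Γ`, in which
  `g`, the base point, the function (in a compact set of continuous functions) and a sub-interval of
  the window are chosen freely in every window.
-/

set_option autoImplicit false
open scoped Manifold
open Pool.Agent.MP663568h87

namespace Pool.Agent.Results.MP_663568_nt.WeakStrongForms

theorem result :
    ∀ (E : Type) [NormedAddCommGroup E] [NormedSpace ℝ E] [FiniteDimensional ℝ E]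
      (G : Type) [Group G] [TopologicalSpace G] [ChartedSpace E G]
      [LieGroup 𝓘(ℝ, E) ((⊤ : ℕ∞) : WithTop ℕ∞) G]
      [SimplyConnectedSpace G] [Group.IsNilpotent G]
      (Γ : Subgroup G) [DiscreteTopology Γ] [CompactSpace (G ⧸ Γ)]
      (𝒩 : Set ℕ) (C : ℕ), (∀ N : ℕ, 1 ≤ N → ∃ N' ∈ 𝒩, N ≤ N' ∧ N' ≤ N ^ C) →
    (∀ (f : G ⧸ Γ → ℂ) (x₀ : G), Continuous f →
      ((∀ ε : ℝ, 0 < ε → ∃ H₀ : ℕ, ∀ N H : ℕ, H₀ ≤ H → H ≤ N →
        S Γ f x₀ N H ≤ ε * (H : ℝ) * Real.log (N : ℝ)) ↔ WeakAt Γ 𝒩 f x₀)) ∧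
    ∀ (D : Set C(G ⧸ Γ, ℂ)) (x₁ : G),
      (∀ f ∈ D, ∀ y : G, ∃ K : NNReal, ∃ U ∈ nhds (extChartAt 𝓘(ℝ, E) y y),
        LipschitzOnWith K
          (fun v : E => f (QuotientGroup.mk ((extChartAt 𝓘(ℝ, E) y).symm v) : G ⧸ Γ)) U) →
      Dense (Submodule.span ℂ D : Set C(G ⧸ Γ, ℂ)) →
    List.TFAE [
      ∀ f ∈ D, WeakAt Γ 𝒩 f x₁,
      ∀ (f : G ⧸ Γ → ℂ) (x₀ : G),
        (∀ y : G, ∃ K : NNReal, ∃ U ∈ nhds (extChartAt 𝓘(ℝ, E) y y),
          LipschitzOnWith K
            (fun v : E => f (QuotientGroup.mk ((extChartAt 𝓘(ℝ, E) y).symm v) : G ⧸ Γ)) U) →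
        ∀ ε : ℝ, 0 < ε → ∃ H₀ : ℕ, ∀ N H : ℕ, H₀ ≤ H → H ≤ N →
          S Γ f x₀ N H ≤ ε * (H : ℝ) * Real.log (N : ℝ),
      StrongEst Γ] :=
  strong_weak_nil

end Pool.Agent.Results.MP_663568_nt.WeakStrongForms
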