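import Mathlib
import Pool.Agent.Lib.MP_663568_nul.ZeroOne
import Pool.Agent.Lib.MP_663568_nul.CorrFam

/-!
# A zero-one law for Q1 of MP_663568_nt twisted by polynomial phases

`G` is a topological group with a filtration `G = A 1 ≥ A 2 ≥ … ≥ A t = 1`, `⁅A i, A j⁆ ≤ A (i + j)`,
and `Γ` a closed subgroup such that each `A i` is a compact set times `Γ ∩ A i`; `f` is continuous
on `G ⧸ Γ`.  `Holds f t K` is the estimate of Q1 for `μ(n) e(P(n))` with the supremum over all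
`g ∈ G`, all base points and all real polynomials `P` of degree at most `t` with `t`-th coefficient
near `K`.  If it holds for one compact set `K₁` of positive measure, then it holds for all compact
sets `K` of irrational numbers.
-/

set_option autoImplicit false
open Finset

namespace Pool.Agent.Results.MP_663568_nt.ZeroOneLaw

open Pool.Agent.Lib.MP_663568_nt Pool.Agent.Lib.MP_663568_nt.Katai Pool.Agent.Lib.MP_663568_nt.Tw
  Pool.Agent.Lib.MP_663568_nt.Nul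

/-- For every `ε > 0` there are `δ > 0` and `H₀` such that for `N ≥ H ≥ H₀` the logarithmic average
over `n ≤ N` of the supremum over all real polynomials `P` of degree at most `t` whose `t`-th
coefficient is within `δ` of `K`, and over all `g, x ∈ G`, of
`|∑_{h ≤ H} e(P(h + n)) f(g ^ (h + n) x Γ) μ(n + h)|` is at most `ε H log N`. -/
def Holds {G : Type} [Group G] {Γ : Subgroup G} (f : G ⧸ Γ → ℂ) (t : ℕ) (K : Set ℝ) : Prop :=
  ∀ ε : ℝ, 0 < ε → ∃ δ : ℝ, 0 < δ ∧ ∃ H₀ : ℕ, ∀ N H : ℕ, H₀ ≤ H → H ≤ N →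
      (∑ n ∈ Finset.Icc 1 N, (1 / (n : ℝ)) *
        ⨆ v : {P : Polynomial ℝ // P.natDegree ≤ t ∧ ∃ α ∈ K, |P.coeff t - α| < δ} × (G × G),
          ‖∑ h ∈ Finset.Icc 1 H,
            Complex.exp (2 * Real.pi * Complex.I * ((v.1.1.eval ((h + n : ℕ) : ℝ) : ℝ) : ℂ)) *
            f (QuotientGroup.mk (v.2.1 ^ (h + n) * v.2.2) : G ⧸ Γ) *
              ((ArithmeticFunction.moebius (n + h) : ℤ) : ℂ)‖)
      ≤ ε * (H : ℝ) * Real.log (N : ℝ)

theorem result (G : Type) [Group G] [TopologicalSpace G] [IsTopologicalGroup G]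
    (t : ℕ) (ht : 0 < t)
    (A : ℕ → Subgroup G) (hanti : Antitone A) (hcomm : ∀ i j, ⁅A i, A j⁆ ≤ A (i + j))
    (hA1 : A 1 = ⊤) (hAt : A t = ⊥)
    (Γ : Subgroup G) (hΓ : IsClosed (Γ : Set G))
    (hcpt : ∀ i, ∃ C : Set G, IsCompact C ∧ (∀ c ∈ C, c ∈ A i) ∧
      ∀ x ∈ A i, ∃ c ∈ C, ∃ γ ∈ Γ, x = c * γ)
    (f : G ⧸ Γ → ℂ) (hf : Continuous f)
    (K₁ : Set ℝ) (hK₁ : IsCompact K₁) (hpos : 0 < MeasureTheory.volume K₁) (h₁ : Holds f t K₁)
    (K : Set ℝ) (hK : IsCompact K) (hirr : ∀ α ∈ K, Irrational α) : Holds f t K := by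
  classical
  -- a bound for `f`
  have h0 : A 0 = ⊤ := top_le_iff.mp (hA1 ▸ hanti (Nat.zero_le 1))
  have hX : CompactSpace (G ⧸ Γ) := by
    obtain ⟨C, hC1, hC2, hC3⟩ := hcpt 0
    refine ⟨?_⟩
    have : (Set.univ : Set (G ⧸ Γ)) = (fun g : G => (g : G ⧸ Γ)) '' C := by
      ext x
      simp only [Set.mem_univ, true_iff]
      obtain ⟨g, rfl⟩ := QuotientGroup.mk_surjective x
      obtain ⟨c, hc, γ, hγ, e⟩ := hC3 g (by rw [h0]; trivial)
      exact ⟨c, hc, (coe_eq_of_mul Γ _ _ _ hγ e).symm⟩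
    rw [this]
    exact hC1.image QuotientGroup.continuous_mk
  obtain ⟨B, hB⟩ : ∃ B : ℝ, ∀ x, ‖f x‖ ≤ B := by
    have h1 : IsCompact (Set.range fun x => ‖f x‖) := isCompact_range (by fun_prop)
    obtain ⟨B, hB⟩ := h1.bddAbove
    exact ⟨B, fun x => hB ⟨x, rfl⟩⟩
  have hB0 : 0 ≤ B := (norm_nonneg _).trans (hB (QuotientGroup.mk 1))
  have hB1 : 0 < B + 1 := by linarith
  set f' : G ⧸ Γ → ℂ := fun x => ((B + 1 : ℝ) : ℂ)⁻¹ * f x with hf'
  have hf'c : Continuous f' := by fun_prop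
  have hf'1 : ∀ x, ‖f' x‖ ≤ 1 := by
    intro x
    rw [hf']
    beta_reduce
    rw [norm_mul, norm_inv, Complex.norm_real, Real.norm_eq_abs, abs_of_pos hB1,
      inv_mul_le_iff₀ hB1, mul_one]
    linarith [hB x]
  -- the family
  set F : ({P : Polynomial ℝ // P.natDegree ≤ t} × (G × G)) → ℕ → ℂ := fun i n =>
    ee (i.1.1.eval (n : ℝ)) * f' ((i.2.1 ^ n * i.2.2 : G) : G ⧸ Γ) with hF
  set ld : ({P : Polynomial ℝ // P.natDegree ≤ t} × (G × G)) → ℝ := fun i => i.1.1.coeff t with hld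
  have hF1 : ∀ i n, ‖F i n‖ ≤ 1 := fun i n => by
    rw [hF]; beta_reduce
    rw [norm_mul]
    exact mul_le_one₀ (norm_ee _).le (norm_nonneg _) (hf'1 _)
  have hcorr : ∀ ε : ℝ, 0 < ε → ∃ C : ℕ, 1 ≤ C ∧ Corr F ld t ε C := by
    intro ε hε
    obtain ⟨C, hC, hCc⟩ := corr_fam t ht A hanti hcomm hA1 hAt Γ hΓ hcpt f' hf'c hf'1 ε hε
    refine ⟨C, hC, fun κ hκ => ?_⟩
    obtain ⟨L₀, hL₀⟩ := hCc κ hκ
    refine ⟨L₀, fun L hL i i' p q j hs => ?_⟩
    exact hL₀ L hL i.1.1 i'.1.1 i.1.2 i'.1.2 i.2.1 i.2.2 i'.2.1 i'.2.2 p q j hs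
  have hdil : Dil F ld t := by
    intro i d z hd
    obtain ⟨n1, c1⟩ := comp_dilate i.1.1 t i.1.2 d 0
    set Q : Polynomial ℝ := i.1.1.comp (Polynomial.C (d : ℝ) * (Polynomial.X + Polynomial.C 0)) +
      Polynomial.C (z : ℝ) * Polynomial.X ^ t with hQ
    have hQd : Q.natDegree ≤ t :=
      (Polynomial.natDegree_add_le _ _).trans (max_le n1 (Polynomial.natDegree_C_mul_X_pow_le _ _))
    refine ⟨(⟨Q, hQd⟩, (i.2.1 ^ d, i.2.2)), fun n => ?_, ?_⟩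
    · have e1 : Q.eval (n : ℝ) = i.1.1.eval ((d * n : ℕ) : ℝ) + ((z * (n : ℤ) ^ t : ℤ) : ℝ) := by
        rw [hQ]; simp
      have e2 : ee (Q.eval (n : ℝ)) = ee (i.1.1.eval ((d * n : ℕ) : ℝ)) := by
        rw [e1, ee_add, ee_int, mul_one]
      have e3 : (i.2.1 ^ d) ^ n = i.2.1 ^ (d * n) := by rw [pow_mul]
      change ee (Q.eval (n : ℝ)) * f' (((i.2.1 ^ d) ^ n * i.2.2 : G) : G ⧸ Γ) =
        ee (i.1.1.eval ((d * n : ℕ) : ℝ)) * f' ((i.2.1 ^ (d * n) * i.2.2 : G) : G ⧸ Γ)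
      rw [e2, e3]
    · change Q.coeff t = (d : ℝ) ^ t * i.1.1.coeff t + z
      rw [hQ, Polynomial.coeff_add, c1, Polynomial.coeff_C_mul_X_pow, if_pos rfl]
  -- comparison of the two forms of the estimate
  have hsup : ∀ (K : Set ℝ) (δ : ℝ) (H n : ℕ),
      (⨆ v : {P : Polynomial ℝ // P.natDegree ≤ t ∧ ∃ α ∈ K, |P.coeff t - α| < δ} × (G × G),
          ‖∑ h ∈ Finset.Icc 1 H,
            Complex.exp (2 * Real.pi * Complex.I * ((v.1.1.eval ((h + n : ℕ) : ℝ) : ℝ) : ℂ)) *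
            f (QuotientGroup.mk (v.2.1 ^ (h + n) * v.2.2) : G ⧸ Γ) *
              ((ArithmeticFunction.moebius (n + h) : ℤ) : ℂ)‖) =
      (B + 1) * GG (FA F ld K δ) muC H n := by
    intro K δ H n
    rw [GG, Real.mul_iSup_of_nonneg hB1.le]
    refine Function.Surjective.iSup_congr (fun v : {P : Polynomial ℝ // P.natDegree ≤ t ∧
        ∃ α ∈ K, |P.coeff t - α| < δ} × (G × G) =>
      (⟨(⟨v.1.1, v.1.2.1⟩, v.2), v.1.2.2⟩ : {i // i ∈ AA ld K δ})) ?_ ?_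
    · rintro ⟨⟨⟨P, hP⟩, y⟩, hi⟩
      exact ⟨(⟨P, hP, hi⟩, y), rfl⟩
    · intro v
      have e : ∑ h ∈ Finset.Icc 1 H,
            Complex.exp (2 * Real.pi * Complex.I * ((v.1.1.eval ((h + n : ℕ) : ℝ) : ℝ) : ℂ)) *
            f (QuotientGroup.mk (v.2.1 ^ (h + n) * v.2.2) : G ⧸ Γ) *
              ((ArithmeticFunction.moebius (n + h) : ℤ) : ℂ) =
          ((B + 1 : ℝ) : ℂ) * ∑ h ∈ Icc 1 H,
            FA F ld K δ ⟨(⟨v.1.1, v.1.2.1⟩, v.2), v.1.2.2⟩ (n + h) * muC (n + h) := by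
        rw [mul_sum]
        refine sum_congr rfl fun h _ => ?_
        rw [add_comm h n]
        have e0 : FA F ld K δ ⟨(⟨v.1.1, v.1.2.1⟩, v.2), v.1.2.2⟩ (n + h) =
          ee (v.1.1.eval ((n + h : ℕ) : ℝ)) *
          f' ((v.2.1 ^ (n + h) * v.2.2 : G) : G ⧸ Γ) := rfl
        rw [e0, hf', ee, muC]
        beta_reduce
        have hne : ((B + 1 : ℝ) : ℂ) ≠ 0 := by exact_mod_cast hB1.ne'
        field_simp
      rw [e, norm_mul, Complex.norm_real, Real.norm_eq_abs, abs_of_pos hB1]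
  have hsum : ∀ (K : Set ℝ) (δ : ℝ) (H N : ℕ),
      (∑ n ∈ Finset.Icc 1 N, (1 / (n : ℝ)) *
        ⨆ v : {P : Polynomial ℝ // P.natDegree ≤ t ∧ ∃ α ∈ K, |P.coeff t - α| < δ} × (G × G),
          ‖∑ h ∈ Finset.Icc 1 H,
            Complex.exp (2 * Real.pi * Complex.I * ((v.1.1.eval ((h + n : ℕ) : ℝ) : ℝ) : ℂ)) *
            f (QuotientGroup.mk (v.2.1 ^ (h + n) * v.2.2) : G ⧸ Γ) *
              ((ArithmeticFunction.moebius (n + h) : ℤ) : ℂ)‖) =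
      (B + 1) * ∑ n ∈ Icc 1 N, (1 / (n : ℝ)) * GG (FA F ld K δ) muC H n := by
    intro K δ H N
    rw [mul_sum]
    refine sum_congr rfl fun n _ => ?_
    rw [hsup]; ring
  have hest : Est F ld muC K₁ := by
    intro ε hε
    obtain ⟨δ, hδ, H₀, h⟩ := h₁ ((B + 1) * ε) (by positivity)
    refine ⟨δ, hδ, H₀, fun N H h1 h2 => ?_⟩
    have h3 := h N H h1 h2
    rw [hsum] at h3
    have h4 : (B + 1) * ∑ n ∈ Icc 1 N, (1 / (n : ℝ)) * GG (FA F ld K₁ δ) muC H n ≤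
        (B + 1) * (ε * H * Real.log N) := by linarith
    exact le_of_mul_le_mul_left h4 hB1
  have hres := zero_one F ld t ht muC hF1 norm_muC muC_mul hdil hcorr K₁ hK₁ hpos hest K hK hirr
  intro ε hε
  obtain ⟨δ, hδ, H₀, h⟩ := hres (ε / (B + 1)) (by positivity)
  refine ⟨δ, hδ, H₀, fun N H h1 h2 => ?_⟩
  rw [hsum]
  calc _ ≤ (B + 1) * (ε / (B + 1) * H * Real.log N) :=
        mul_le_mul_of_nonneg_left (h N H h1 h2) hB1.le
    _ = _ := by field_simp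

end Pool.Agent.Results.MP_663568_nt.ZeroOneLaw
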